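import Mathlib
import Pool.Agent.NH29.AB.Fin2

/-!
# The dynamical Lehmer conjecture for abelian points of rational maps

Let `K` be a number field and `f` any rational map of the projective line of degree `d ≥ 2` over
`K`. There is a constant `C` such that

`ĥ_f(P) ≥ 1 / (C * (1 + log [K(P) : K]) ^ C)`

for all wandering points `P` such that `K(P)` is an abelian extension of `K`. More generally, for
every `m ≥ 1` there is such a constant for all wandering points of `P^1(L)`, for all finite Galois
extensions `L` of `K` such that the `m`-th powers of the elements of the Galois group of `L` over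
`K` are central (`m = 1`: abelian extensions; the condition also holds if the exponent of the Galois
group divides `m`).

In particular the inequality `ĥ_f(P) ≥ c / [K(P) : K]` of the dynamical Lehmer conjecture holds for
these points. There is no condition on the map (on its reductions) or on the ramification of `L`.

The proof works at a prime `v` of `K` over a prime number which does not divide `m * [K(P) : K]`, of
size polynomial in `1 + log [K(P) : K]`, and gives a lower bound which is polynomial in the norm of
`v`. If the height of `P` is smaller, then the iterates `z` of `P` (up to a multiple of `log N(v)`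
of them) satisfy algebraic relations over `K` with their images `σ z` under a central power of
Frobenius, and these relations force the pair `(z, σ z)` to be closer to the graph of a power map
than the ramification permits, or to be invariant under an iterate of `f`, which is excluded by a
comparison of degrees and heights.
-/

set_option autoImplicit false

namespace Pool.Agent.NH29.Kept.AbelianLehmer

open MvPolynomial NumberField Module Filter Topology

/-- the map defined by a pair of forms over `K`, on coordinate vectors over an extension -/
noncomputable def evalMap {K L : Type} [Field K] [Field L] [Algebra K L]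
    (F : Fin 2 → MvPolynomial (Fin 2) K) (y : Fin 2 → L) : Fin 2 → L :=
  fun i => aeval y (F i)

/-- the point with coordinate vector `x` is wandering: its iterates are pairwise distinct points
of the projective line -/
def Wandering {K L : Type} [Field K] [Field L] [Algebra K L]
    (F : Fin 2 → MvPolynomial (Fin 2) K) (x : Fin 2 → L) : Prop :=
  ¬ ∃ m n : ℕ, m ≠ n ∧ ∃ c : L, c ≠ 0 ∧ (evalMap F)^[n] x = c • (evalMap F)^[m] x

/-- `h` is the canonical height of the point with coordinate vector `x` over the number field `L`:
the limit of `h(F^n(x)) / d ^ n`, where `h` is the absolute logarithmic Weil height, that is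
Mathlib's (relative) `Height.logHeight` divided by `[L : ℚ]` -/
def IsCanonicalHeight {K L : Type} [Field K] [Field L] [NumberField L] [Algebra K L]
    (F : Fin 2 → MvPolynomial (Fin 2) K) (d : ℕ) (x : Fin 2 → L) (h : ℝ) : Prop :=
  Tendsto (fun n : ℕ => Height.logHeight ((evalMap F)^[n] x) /
    ((finrank ℚ L : ℝ) * (d : ℝ) ^ n)) atTop (𝓝 h)

/-- the field `K(P)` generated over `K` by the ratios `x_i / x_j` of the coordinates of the point
`P` with coordinate vector `x` -/
def fieldOfDefinition (K : Type) {L : Type} [Field K] [Field L] [Algebra K L]
    (x : Fin 2 → L) : IntermediateField K L :=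
  IntermediateField.adjoin K (Set.range fun ij : Fin 2 × Fin 2 => x ij.1 / x ij.2)

/-- **Main result.** -/
theorem result (K : Type) [Field K] [NumberField K] (d : ℕ) (hd : 2 ≤ d)
    -- the rational map: a pair of forms of degree `d` without common zero
    (F : Fin 2 → MvPolynomial (Fin 2) K) (hF : ∀ i, (F i).IsHomogeneous d)
    (hmor : ∀ z : Fin 2 → AlgebraicClosure K, (∀ i, aeval z (F i) = 0) → z = 0)
    -- `m = 1` is the case of abelian extensions
    (m : ℕ) (hm : 1 ≤ m) :
    ∃ C : ℕ, 0 < C ∧ ∀ (L : Type) [Field L] [NumberField L] [Algebra K L] [IsGalois K L],
      (∀ σ g : Gal(L/K), σ ^ m * g = g * σ ^ m) →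
      ∀ x : Fin 2 → L, x ≠ 0 → Wandering F x →
      ∃ h : ℝ, IsCanonicalHeight F d x h ∧
        1 / ((C : ℝ) * (1 + Real.log (finrank K (fieldOfDefinition K x))) ^ C) ≤ h :=
  NH29.AB.main_thm hd F hF hmor hm

end Pool.Agent.NH29.Kept.AbelianLehmer
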