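import Mathlib
import Pool.Agent.NH29.AC.Fin3
import Pool.Agent.NH29.AC.Nrm
import Pool.Agent.NH29.AC.Cent
import Pool.Agent.NH29.AC.Orb
import Pool.Agent.NH29.AC.Grp
import Pool.Agent.NH29.AC.Cor2
import Pool.Agent.NH29.AC.Clo2

/-!
# The dynamical Lehmer conjecture for points abelian over an extension of bounded degree

Let `K` be a number field and `f` any rational map of the projective line of degree `d ≥ 2` over
`K`. For every `m ≥ 1` there is a constant `C` such that

`ĥ_f(P) ≥ 1 / (C * (1 + log [K(P) : K]) ^ C)`

for all wandering points `P` of `P^1(L)` and all number fields `L` with the following property: `L`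
is a Galois extension of some extension `K'` of `K` of degree at most `m`, and in the Galois group
of `L` over `K'` the `m`-th power of every element has at most `m` conjugates. The constant does not
depend on `K'` and `L`.

Examples of such fields `L`: the abelian extensions of the extensions `K'` of `K` of degree at most
`m`; the dihedral extensions of `K` (`m = 2`); the Galois extensions whose Galois group has exponent
dividing `m`, or has a commutator subgroup of order at most `m`.

In particular the inequality `ĥ_f(P) ≥ c / [K(P) : K]` of the dynamical Lehmer conjecture holds for
these points, for every `f`. There is no condition on the map (on its reductions) or on the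
ramification of `L`.

The proof works at a prime `v` of `K` over a large prime number which does not divide
`[K(P) : K]`, of size polynomial in `1 + log [K(P) : K]`. In the Galois closure of `K(P)` over `K`
all powers with a suitable bounded exponent have a bounded number of conjugates; an argument on
permutation groups shows that such a prime number does not divide the order of the Galois group of
the closure, so the ramification at `v` is tame, and a bounded power of Frobenius commutes with a
subgroup of bounded index of the inertia group. If the height of `P` is small, then the iterates `z`
of `P` (up to a multiple of `log N(v)` of them) satisfy algebraic relations over `K` with their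
images under this power of Frobenius, and these relations are excluded by the bound for the
ramification, or by a comparison of degrees and heights.
-/

set_option autoImplicit false

namespace Pool.Agent.NH29.Kept.GaloisOverBoundedDegree

open MvPolynomial NumberField Module Filter Topology

/-- the map defined by a pair of forms over `K`, on coordinate vectors over an extension -/
noncomputable def evalMap {K L : Type} [Field K] [Field L] [Algebra K L]
    (F : Fin 2 → MvPolynomial (Fin 2) K) (y : Fin 2 → L) : Fin 2 → L :=
  fun i => aeval y (F i)

/-- the point with coordinate vector `x` is wandering: its iterates are pairwise distinct points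
of the projective line -/
def Wandering {K L : Type} [Field K] [Field L] [Algebra K L]
    (F : Fin 2 → MvPolynomial (Fin 2) K) (x : Fin 2 → L) : Prop :=
  ¬ ∃ m n : ℕ, m ≠ n ∧ ∃ c : L, c ≠ 0 ∧ (evalMap F)^[n] x = c • (evalMap F)^[m] x

/-- `h` is the canonical height of the point with coordinate vector `x` over the number field `L`:
the limit of `h(F^n(x)) / d ^ n`, where `h` is the absolute logarithmic Weil height, that is
Mathlib's (relative) `Height.logHeight` divided by `[L : ℚ]` -/
def IsCanonicalHeight {K L : Type} [Field K] [Field L] [NumberField L] [Algebra K L]
    (F : Fin 2 → MvPolynomial (Fin 2) K) (d : ℕ) (x : Fin 2 → L) (h : ℝ) : Prop :=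
  Tendsto (fun n : ℕ => Height.logHeight ((evalMap F)^[n] x) /
    ((finrank ℚ L : ℝ) * (d : ℝ) ^ n)) atTop (𝓝 h)

/-- the field `K(P)` generated over `K` by the ratios `x_i / x_j` of the coordinates of the point
`P` with coordinate vector `x` -/
def fieldOfDefinition (K : Type) {L : Type} [Field K] [Field L] [Algebra K L]
    (x : Fin 2 → L) : IntermediateField K L :=
  IntermediateField.adjoin K (Set.range fun ij : Fin 2 × Fin 2 => x ij.1 / x ij.2)

/-- **Main result.** -/
theorem result (K : Type) [Field K] [NumberField K] (d : ℕ) (hd : 2 ≤ d)
    -- the rational map: a pair of forms of degree `d` without common zero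
    (F : Fin 2 → MvPolynomial (Fin 2) K) (hF : ∀ i, (F i).IsHomogeneous d)
    (hmor : ∀ z : Fin 2 → AlgebraicClosure K, (∀ i, aeval z (F i) = 0) → z = 0)
    (m : ℕ) (hm : 1 ≤ m) :
    ∃ C : ℕ, 0 < C ∧
      -- `L` is a Galois extension of an extension `K'` of `K` of degree at most `m`
      ∀ (K' L : Type) [Field K'] [NumberField K'] [Field L] [NumberField L] [Algebra K K']
        [Algebra K' L] [Algebra K L] [IsScalarTower K K' L] [IsGalois K' L],
      finrank K K' ≤ m →
      -- the `m`-th power of every element of the Galois group has at most `m` conjugates
      (∀ σ : Gal(L/K'), (Set.range fun g : Gal(L/K') => g * σ ^ m * g⁻¹).ncard ≤ m) →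
      ∀ x : Fin 2 → L, x ≠ 0 → Wandering F x →
      ∃ h : ℝ, IsCanonicalHeight F d x h ∧
        1 / ((C : ℝ) * (1 + Real.log (finrank K (fieldOfDefinition K x))) ^ C) ≤ h :=
  NH29.AC.main5 NH29.AC.nrm NH29.AC.con NH29.AC.orb NH29.AC.grp NH29.AC.clo2 NH29.AC.cor2
    hd F hF hmor hm

end Pool.Agent.NH29.Kept.GaloisOverBoundedDegree
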